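import Pool.Agent.Helper36.PX.BndE
import Pool.Agent.Helper94.SI.P5

/-! Project SI (MP_540de1_nt): level of distribution `5 / 14` for symmetric digit strings (leading zeros allowed). -/

set_option autoImplicit false

namespace Pool.Agent.Helper15.SI

open Finset Filter Topology Pool.Agent.Helper10 Pool.Agent.Helper10.P5 Pool.Agent.Helper10.P4
  Pool.Agent.Helper10.SQ Pool.Agent.Helper10.EN

/-- the remainder in one residue class -/
theorem class_bound_S (m q b : ℕ) (hq : q.Coprime 10) :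
    |((sc m q b : ℕ) : ℝ) - 10 ^ (m + 1) / q| ≤
      10 * (10 ^ m / q * ∑ d ∈ q.divisors.erase 1, Psi5 100 m d) := by
  have hq0 : 0 < q := by
    rcases Nat.eq_zero_or_pos q with h | h
    · rw [h] at hq
      norm_num at hq
    · exact h
  rw [p5_card m q b hq, c1_count m q 1 0 (10 ^ (2 * m + 4) + 1 + 100 * b) hq0 le_rfl (by norm_num)
    (by norm_num)]
  have e1 : (10 : ℝ) ^ (m + 1) / q = ∑ d ∈ range 10, (10 : ℝ) ^ m / q := by
    rw [Finset.sum_const, Finset.card_range, nsmul_eq_mul, pow_succ]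
    push_cast
    ring
  rw [e1]
  push_cast
  rw [← Finset.sum_sub_distrib]
  refine (Finset.abs_sum_le_sum_abs _ _).trans ?_
  calc _ ≤ ∑ d ∈ range 10, (10 : ℝ) ^ m / q * ∑ d ∈ q.divisors.erase 1, Psi5 100 m d :=
        Finset.sum_le_sum fun d _ => count5 100 m _ q hq0
    _ = _ := by
        rw [Finset.sum_const, Finset.card_range, nsmul_eq_mul]
        norm_num

/-- **level of distribution `5/14`** for symmetric strings -/
theorem levelB_S (B : ℕ) : ∃ c : ℝ, 0 < c ∧ ∃ m0 : ℕ, ∀ m : ℕ, m0 ≤ m → ∀ Q : ℕ,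
    (Q : ℝ) ≤ (10 : ℝ) ^ ((5 / 7 : ℝ) * (m : ℝ)) → ∀ b : ℕ → ℕ,
    ∑ q ∈ (Icc 1 Q).filter (fun q => q.Coprime 10), (q.divisors.card : ℝ) ^ B *
      |((sc m q (b q) : ℕ) : ℝ) - 10 ^ (m + 1) / q| ≤
        (10 : ℝ) ^ m * Real.exp (-(c * √(m : ℝ))) := by
  obtain ⟨c, hc, T0, hT0⟩ := Pool.Agent.Helper36.PX.bnd_errE B
  obtain ⟨n1, hn1⟩ := Pool.Agent.Helper36.PX.absorb c hc 10 (by norm_num)
  refine ⟨c / 2, by positivity, T0 + n1, ?_⟩
  intro m hm Q hQ b
  -- the exponent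
  obtain ⟨J, hJ⟩ : ∃ J : ℕ, J = (5 * m + 6) / 7 := ⟨_, rfl⟩
  have hJn : 5 * m ≤ 7 * J := by omega
  have hQJ : Q ≤ 10 ^ J := by
    have h1 : (10 : ℝ) ^ ((5 / 7 : ℝ) * (m : ℝ)) ≤ (10 : ℝ) ^ (J : ℝ) := by
      apply Real.rpow_le_rpow_of_exponent_le (by norm_num)
      have h2 : (5 : ℝ) * m ≤ 7 * J := by exact_mod_cast hJn
      linarith
    rw [Real.rpow_natCast] at h1
    exact_mod_cast hQ.trans h1
  have hJ2 : 7 * J ≤ 5 * m + 20 := by omega
  have hκ : ∀ q : ℕ, q.Coprime 10 → q.Coprime 100 := by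
    intro q h
    have := Nat.Coprime.pow_right 2 h
    norm_num at this
    exact this
  have h1 := hT0 m (by omega) 100 Q J hκ hQJ hJ2
  have h2 : Real.exp (-(c * √(m : ℝ))) ≤ Real.exp (-(c * √((m - 1 : ℕ) : ℝ))) := by
    apply Real.exp_le_exp.2
    have h3 : √((m - 1 : ℕ) : ℝ) ≤ √(m : ℝ) := by
      apply Real.sqrt_le_sqrt
      exact_mod_cast Nat.sub_le m 1
    have := mul_le_mul_of_nonneg_left h3 hc.le
    linarith
  calc ∑ q ∈ (Icc 1 Q).filter (fun q => q.Coprime 10), (q.divisors.card : ℝ) ^ B *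
      |((sc m q (b q) : ℕ) : ℝ) - 10 ^ (m + 1) / q|
      ≤ ∑ q ∈ (Icc 1 Q).filter (fun q => q.Coprime 10), (q.divisors.card : ℝ) ^ B *
        (10 * (10 ^ m / q * ∑ d ∈ q.divisors.erase 1, Psi5 100 m d)) := by
        apply Finset.sum_le_sum
        intro q hq
        rw [Finset.mem_filter] at hq
        exact mul_le_mul_of_nonneg_left (class_bound_S m q (b q) hq.2) (by positivity)
    _ = 10 * bndB B 100 m Q := by
        unfold bndB tau
        rw [Finset.mul_sum]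
        apply Finset.sum_congr rfl
        intro q _
        ring
    _ ≤ 10 * (10 ^ m * Real.exp (-(c * √(m : ℝ)))) := by linarith
    _ = (10 : ℝ) ^ m * (10 * Real.exp (-(c * √(m : ℝ)))) := by ring
    _ ≤ (10 : ℝ) ^ m * (10 * Real.exp (-(c * √((m - 1 : ℕ) : ℝ)))) := by
        apply mul_le_mul_of_nonneg_left _ (by positivity)
        linarith
    _ ≤ (10 : ℝ) ^ m * Real.exp (-(c / 2 * √(m : ℝ))) :=
        mul_le_mul_of_nonneg_left (hn1 m (by omega)) (by positivity)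

end Pool.Agent.Helper15.SI
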