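import Pool.Agent.Helper15.SI.Defs

/-! Project SI (MP_540de1_nt), leaf P1a: decimal palindromes are the symmetric digit strings without a leading zero;
the last two digits of a symmetric string are read off from its prefix. -/

namespace Pool.Agent.Helper15.SI

open Finset Filter Topology Pool.Agent.Helper10.SQ Pool.Agent.Helper10.P4

theorem isPalD_iff (l N : ℕ) (hl : 1 ≤ l) : IsPalD l N ↔ Sy l N ∧ 10 ^ (l - 1) ≤ N := by
  constructor
  · rintro ⟨h1, h2⟩
    refine ⟨⟨?_, ?_⟩, ?_⟩
    · have h3 := Nat.lt_base_pow_length_digits (b := 10) (m := N) (by norm_num)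
      rwa [h1] at h3
    · intro i hi
      exact (Pool.Agent.Helper10.digit_symm N l h1 h2 i hi).symm
    · obtain ⟨l', rfl⟩ : ∃ l', l = l' + 1 := ⟨l - 1, by omega⟩
      exact B1_pow_le ⟨h1, h2⟩
  · rintro ⟨⟨h1, h2⟩, h3⟩
    have hlen : (Nat.digits 10 N).length = l := by
      apply le_antisymm
      · exact (Nat.digits_length_le_iff (by norm_num) N).2 h1
      · by_contra hc
        push Not at hc
        have h4 : N < 10 ^ (l - 1) := (Nat.digits_length_le_iff (by norm_num) N).1 (by omega)
        omega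
    refine ⟨hlen, ?_⟩
    apply List.ext_getElem
    · simp
    · intro i hi1 hi2
      rw [List.getElem_reverse]
      have h5 : i < l := by rwa [hlen] at hi2
      have h6 : (Nat.digits 10 N).length - 1 - i < (Nat.digits 10 N).length := by omega
      rw [← List.getD_eq_getElem _ 0 h6, ← List.getD_eq_getElem _ 0 hi2,
        Nat.getD_digits _ _ (by norm_num), Nat.getD_digits _ _ (by norm_num), hlen]
      exact (h2 i h5).symm

theorem last_two (l k w N : ℕ) (hk : 2 ≤ k) (hw : w < 10 ^ k) (hN : Sy (l + 2 * k) N)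
    (h : N / 10 ^ (l + k) = w) : N % 100 = lastTwo k w := by
  obtain ⟨-, h2⟩ := hN
  have e0 := h2 0 (by omega)
  have e1 := h2 1 (by omega)
  have f0 : N / 10 ^ (l + 2 * k - 1 - 0) = w / 10 ^ (k - 1) := by
    rw [← h, Nat.div_div_eq_div_mul, ← pow_add]
    congr 2
    omega
  have f1 : N / 10 ^ (l + 2 * k - 1 - 1) = w / 10 ^ (k - 2) := by
    rw [← h, Nat.div_div_eq_div_mul, ← pow_add]
    congr 2
    omega
  rw [f0] at e0
  rw [f1] at e1
  have g0 : w / 10 ^ (k - 1) < 10 := by
    apply Nat.div_lt_of_lt_mul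
    rw [← pow_succ, show k - 1 + 1 = k by omega]
    exact hw
  rw [pow_zero, Nat.div_one] at e0
  rw [pow_one] at e1
  have g1 : N % 100 = 10 * (N / 10 % 10) + N % 10 := by omega
  rw [g1, e0, e1, Nat.mod_eq_of_lt g0]
  rfl

end Pool.Agent.Helper15.SI
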