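import Pool.Agent.Helper15.SI.Defs

/-! Project SI (MP_540de1_nt), leaf P1b: peeling the outer digits of a symmetric digit string. -/

namespace Pool.Agent.Helper15.SI

open Finset Filter Topology Pool.Agent.Helper10.SQ Pool.Agent.Helper10.P4

lemma p1b_digit_mod (A l i : ℕ) (hi : i < l) : A % 10 ^ l / 10 ^ i % 10 = A / 10 ^ i % 10 := by
  have h1 : 10 ^ l = 10 ^ i * 10 ^ (l - i) := by
    rw [← pow_add]; congr 1; omega
  rw [h1, Nat.mod_mul_right_div_self]
  apply Nat.mod_mod_of_dvd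
  exact dvd_pow_self 10 (by omega)

lemma p1b_digit_add (c M l i : ℕ) (hi : i < l) : (c * 10 ^ l + M) / 10 ^ i % 10 = M / 10 ^ i % 10 := by
  have h1 : c * 10 ^ l = 10 ^ i * (10 * (c * 10 ^ (l - i - 1))) := by
    have : 10 ^ l = 10 ^ i * (10 * 10 ^ (l - i - 1)) := by
      rw [← pow_succ', ← pow_add]; congr 1; omega
    rw [this]; ring
  rw [h1, Nat.mul_add_div (by positivity), Nat.mul_add_mod]

lemma p1b_div10 (c M l : ℕ) (hc : c < 10) : (c * (10 ^ (l + 1) + 1) + 10 * M) / 10 = c * 10 ^ l + M := by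
  have h1 : c * (10 ^ (l + 1) + 1) + 10 * M = 10 * (c * 10 ^ l + M) + c := by ring
  rw [h1, Nat.mul_add_div (by norm_num), Nat.div_eq_of_lt hc, add_zero]

lemma p1b_top (c M l : ℕ) (hM : M < 10 ^ l) : (c * 10 ^ l + M) / 10 ^ l = c := by
  rw [mul_comm, Nat.mul_add_div (by positivity), Nat.div_eq_of_lt hM, add_zero]

theorem sy_step (l c N : ℕ) (hc : c < 10) : (Sy (l + 2) N ∧ N / 10 ^ (l + 1) = c) ↔
    ∃ M, Sy l M ∧ N = c * (10 ^ (l + 1) + 1) + 10 * M := by
  constructor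
  · rintro ⟨⟨h1, h2⟩, h3⟩
    have e0 : N % 10 = c := by
      have := h2 0 (by omega)
      rw [pow_zero, Nat.div_one, show l + 2 - 1 - 0 = l + 1 by omega, h3, Nat.mod_eq_of_lt hc] at this
      exact this
    refine ⟨N / 10 % 10 ^ l, ⟨Nat.mod_lt _ (by positivity), ?_⟩, ?_⟩
    · intro i hi
      rw [p1b_digit_mod _ _ _ hi, p1b_digit_mod _ _ _ (by omega), Nat.div_div_eq_div_mul,
        Nat.div_div_eq_div_mul, ← pow_succ', ← pow_succ', h2 (i + 1) (by omega)]
      congr 3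
      omega
    · have h4 : N / 10 / 10 ^ l = c := by
        rw [Nat.div_div_eq_div_mul, ← pow_succ', h3]
      have h5 := Nat.div_add_mod (N / 10) (10 ^ l)
      rw [h4] at h5
      have h6 := Nat.div_add_mod N 10
      rw [e0] at h6
      calc N = 10 * (N / 10) + c := h6.symm
        _ = 10 * (10 ^ l * c + N / 10 % 10 ^ l) + c := by rw [h5]
        _ = _ := by ring
  · rintro ⟨M, ⟨hM1, hM2⟩, rfl⟩
    have hd := p1b_div10 c M l hc
    have htop : (c * (10 ^ (l + 1) + 1) + 10 * M) / 10 ^ (l + 1) = c := by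
      rw [pow_succ', ← Nat.div_div_eq_div_mul, ← pow_succ', hd, p1b_top c M l hM1]
    have hdig : ∀ i, 1 ≤ i → i ≤ l →
        (c * (10 ^ (l + 1) + 1) + 10 * M) / 10 ^ i % 10 = M / 10 ^ (i - 1) % 10 := by
      intro i hi1 hi2
      obtain ⟨j, rfl⟩ : ∃ j, i = j + 1 := ⟨i - 1, by omega⟩
      rw [pow_succ' 10 j, ← Nat.div_div_eq_div_mul, hd, p1b_digit_add c M l j (by omega)]
      simp
    have hlow : (c * (10 ^ (l + 1) + 1) + 10 * M) % 10 = c := by
      have h1 : c * (10 ^ (l + 1) + 1) + 10 * M = 10 * (c * 10 ^ l + M) + c := by ring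
      rw [h1, Nat.mul_add_mod, Nat.mod_eq_of_lt hc]
    refine ⟨⟨?_, ?_⟩, htop⟩
    · have h1 : c * (10 ^ (l + 1) + 1) + 10 * M = 10 * (c * 10 ^ l + M) + c := by ring
      have h2 : c * 10 ^ l ≤ 9 * 10 ^ l := Nat.mul_le_mul_right _ (by omega)
      have h3 : 10 ^ (l + 2) = 100 * 10 ^ l := by rw [pow_add]; ring
      rw [h1, h3]
      omega
    · intro i hi
      rcases Nat.eq_zero_or_pos i with h0 | h0
      · subst h0
        rw [pow_zero, Nat.div_one, show l + 2 - 1 - 0 = l + 1 by omega, htop, hlow,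
          Nat.mod_eq_of_lt hc]
      · rcases Nat.lt_or_ge l i with h1 | h1
        · have h2 : i = l + 1 := by omega
          subst h2
          rw [show l + 2 - 1 - (l + 1) = 0 by omega, pow_zero, Nat.div_one, htop, hlow,
            Nat.mod_eq_of_lt hc]
        · rw [hdig i h0 h1, hdig (l + 2 - 1 - i) (by omega) (by omega), hM2 (i - 1) (by omega)]
          congr 3
          omega

theorem sy_prefix (l k w : ℕ) (hw : w < 10 ^ k) : ∃ W : ℕ, ∀ N : ℕ,
    (Sy (l + 2 * k) N ∧ N / 10 ^ (l + k) = w) ↔ ∃ M, Sy l M ∧ N = W + 10 ^ k * M := by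
  induction k generalizing w with
  | zero =>
    refine ⟨0, fun N => ?_⟩
    have hw0 : w = 0 := by simpa using hw
    subst hw0
    constructor
    · rintro ⟨h1, -⟩
      exact ⟨N, by simpa using h1, by simp⟩
    · rintro ⟨M, h1, h2⟩
      have h3 : N = M := by simpa using h2
      subst h3
      exact ⟨by simpa using h1, by simpa using Nat.div_eq_of_lt h1.1⟩
  | succ k ih =>
    obtain ⟨W, hW⟩ := ih (w % 10 ^ k) (Nat.mod_lt _ (by positivity))
    have hc : w / 10 ^ k < 10 := by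
      apply Nat.div_lt_of_lt_mul
      rwa [← pow_succ]
    have hwdec : 10 ^ k * (w / 10 ^ k) + w % 10 ^ k = w := Nat.div_add_mod w (10 ^ k)
    set c := w / 10 ^ k with hcdef
    refine ⟨c * (10 ^ (l + 2 * k + 1) + 1) + 10 * W, fun N => ?_⟩
    have hkey : ∀ M1 : ℕ, (c * (10 ^ (l + 2 * k + 1) + 1) + 10 * M1) / 10 ^ (l + (k + 1)) =
        10 ^ k * c + M1 / 10 ^ (l + k) := by
      intro M1
      rw [show l + (k + 1) = (l + k) + 1 by omega, pow_succ' 10 (l + k),
        ← Nat.div_div_eq_div_mul, p1b_div10 c M1 (l + 2 * k) hc]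
      have h1 : c * 10 ^ (l + 2 * k) = 10 ^ (l + k) * (10 ^ k * c) := by
        rw [show l + 2 * k = (l + k) + k by omega, pow_add 10 (l + k) k]; ring
      rw [h1, Nat.mul_add_div (by positivity)]
    constructor
    · rintro ⟨h1, h2⟩
      have h3 : N / 10 ^ (l + 2 * k + 1) = c := by
        rw [hcdef, ← h2, Nat.div_div_eq_div_mul, ← pow_add]
        congr 2
        omega
      obtain ⟨M1, hM1, hN⟩ := (sy_step (l + 2 * k) c N hc).1 ⟨h1, h3⟩
      have h4 : M1 / 10 ^ (l + k) = w % 10 ^ k := by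
        have h5 := hkey M1
        rw [← hN, h2] at h5
        omega
      obtain ⟨M, hM, hM1'⟩ := (hW M1).1 ⟨hM1, h4⟩
      refine ⟨M, hM, ?_⟩
      rw [hN, hM1']
      ring
    · rintro ⟨M, hM, hN⟩
      obtain ⟨h1, h2⟩ := (hW (W + 10 ^ k * M)).2 ⟨M, hM, rfl⟩
      have hN' : N = c * (10 ^ (l + 2 * k + 1) + 1) + 10 * (W + 10 ^ k * M) := by
        rw [hN]; ring
      have h3 := (sy_step (l + 2 * k) c N hc).2 ⟨W + 10 ^ k * M, h1, hN'⟩
      refine ⟨h3.1, ?_⟩
      rw [hN', hkey, h2]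
      exact hwdec

end Pool.Agent.Helper15.SI
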